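import Pool.Agent.W_7d29a1_SQ.SscF35

/-!
Theorem UN: at a right record the random fluctuation is lucky for free, and the same scale counting
bounds it by the resampling bound.
-/

namespace Pool.Agent.W_7d29a1_UN

open MeasureTheory ProbabilityTheory Filter Topology Pool.Agent.W_MP_7d29a1_pr
  Pool.Agent.W_7d29a1_h46 Pool.Agent.W_7d29a1_h46u Pool.Agent.W_7d29a1_D2 Pool.Agent.W_7d29a1_Q29
  Pool.Agent.W_7d29a1_R34 Pool.Agent.W_7d29a1_SP Pool.Agent.W_7d29a1_SD Pool.Agent.W_7d29a1_SQ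

variable {d : ℕ} {ρ : Measure ℝ} {β : ℝ}

/-- The upper bound at a right record. -/
theorem recN70 [IsProbabilityMeasure ρ] (hF : FluP d ρ β) (hB : BalP d ρ β) (hA : AmpP d ρ β)
    (hS : SscF d ρ β) (hPs : ∀ (h : Vec d) (n : ℕ), 1 ≤ Ps ρ β h n)
    (hle : ∀ (h : Vec d) (k n : ℕ), k ≤ n → En ρ β h k ≤ Ps ρ β h n ∧ Fn ρ β h k ≤ Ps ρ β h n)
    {c₀ D : ℝ} (hc : 0 < c₀) (hD : 1 ≤ D) : ∃ δ₀ κ : ℝ, 0 < δ₀ ∧ 0 < κ ∧ κ ≤ 1 ∧
      ∀ h : Vec d, Loc1 ρ β h c₀ → ∀ n : ℕ, RRec (Ps ρ β h) n → ∀ m : ℕ, 1 ≤ m → m ≤ n →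
        Ps ρ β h n ≤ D * Fn ρ β h m → ∀ M : ℝ, 0 < M →
          (∀ L : ℕ, m ≤ L → L ≤ 2 * m → RS ρ β h L ⌊κ * L⌋₊ M δ₀) → Ps ρ β h n ≤ M + 1 := by
  obtain ⟨Cs, δs, hCs, hδs, kS⟩ := hS c₀ hc
  have hD0 : 0 < D := by linarith
  obtain ⟨c₁, hc₁, kF⟩ := hF c₀ (1 / D) hc (by positivity) 1
  obtain ⟨c₂, hc₂, kB⟩ := hB c₀ (1 / (16 * D)) hc (by positivity) 1
  obtain ⟨Ca, ca, hCa, hca, kA⟩ := hA (32 * Cs * D) (by nlinarith)
  set q : ℝ := min c₁ c₂ with hq
  have hq0 : 0 < q := lt_min hc₁ hc₂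
  set q' : ℝ := ca * q ^ Ca with hq'
  have hq'0 : 0 < q' := mul_pos hca (Real.rpow_pos_of_pos hq0 _)
  have hCs0 : 0 < Cs := by linarith
  refine ⟨min δs (q' / Cs), min (c₀ / 4) 1, lt_min hδs (by positivity),
    lt_min (by positivity) one_pos, min_le_right _ _, ?_⟩
  intro h hL n hn m hm hmn hDF M hM hRS
  have hP1 := hPs h n
  set P : ℝ := Ps ρ β h n with hP
  have hP0 : 0 < P := by linarith
  have hFm : 1 / D * P ≤ Fn ρ β h m := by
    rw [div_mul_eq_mul_div, one_mul, div_le_iff₀ hD0]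
    linarith
  have hmn1 : m ≤ 1 * n := by omega
  have h1 := kF h hL n hn m hm hmn1 hFm
  have h2 := kB h hL n hn m hm hmn1
  have h3 : q ≤ (law d ρ).real {η | A ρ β h m + 1 / (8 * D) * P < X β h η m} := by
    refine (min_le_left _ _).trans (h1.trans (measureReal_mono fun η hη => ?_))
    have hη1 : A ρ β h m + Fn ρ β h m / 8 < X β h η m := hη
    show A ρ β h m + 1 / (8 * D) * P < X β h η m
    have e : 1 / (8 * D) * P = 1 / D * P / 8 := by
      field_simp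
    rw [e]
    linarith
  have h4 : q ≤ (law d ρ).real {η | X β h η m ≤ A ρ β h m + 1 / (16 * D) * P} :=
    (min_le_right _ _).trans h2
  have e0 : 1 / (8 * D) * P = 2 * (1 / (16 * D) * P) := by
    field_simp
    ring
  have hx0 : 0 < 1 / (16 * D) * P := by positivity
  have h5 := kA h m (A ρ β h m + 1 / (16 * D) * P) (A ρ β h m + 1 / (8 * D) * P) q hq0
    (by linarith) h4 h3
  rw [← hq'] at h5
  have h6 : Cs * min δs (q' / Cs) ≤
      (law d ρ).real {η | A ρ β h m + 2 * Cs * P ≤ X β h η m} := by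
    have h7 : Cs * min δs (q' / Cs) ≤ q' := by
      calc Cs * min δs (q' / Cs) ≤ Cs * (q' / Cs) :=
            mul_le_mul_of_nonneg_left (min_le_right _ _) hCs0.le
        _ = q' := by field_simp
    refine h7.trans (h5.trans (measureReal_mono fun η hη => ?_))
    have hη1 : A ρ β h m + 1 / (8 * D) * P + 32 * Cs * D *
      (A ρ β h m + 1 / (8 * D) * P - (A ρ β h m + 1 / (16 * D) * P)) < X β h η m := hη
    show A ρ β h m + 2 * Cs * P ≤ X β h η m
    have e : 32 * Cs * D * (A ρ β h m + 1 / (8 * D) * P - (A ρ β h m + 1 / (16 * D) * P)) =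
        2 * Cs * P := by
      field_simp
      ring
    rw [e] at hη1
    linarith [show 0 < 1 / (8 * D) * P by positivity]
  have h7 := kS h hL (min (c₀ / 4) 1) m (2 * Cs * P) M (min δs (q' / Cs)) P
    (lt_min (by positivity) one_pos) (min_le_left _ _) hm hM (lt_min hδs (by positivity))
    (min_le_left _ _) hRS (fun k hk => hle h k n (hk.trans hmn)) h6
  nlinarith

end Pool.Agent.W_7d29a1_UN
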