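import Pool.Agent.W_7d29a1_UN.SelN70
import Pool.Agent.W_7d29a1_UN.RecN70
import Pool.Agent.W_7d29a1_SQ.Fin83
import Pool.Agent.W_7d29a1_SQ.Top32
import Pool.Agent.W_7d29a1_UC.Gro43

/-!
Theorem UN from its leaves.
-/

namespace Pool.Agent.W_7d29a1_UN

open MeasureTheory ProbabilityTheory Filter Topology Pool.Agent.W_MP_7d29a1_pr
  Pool.Agent.W_7d29a1_h46 Pool.Agent.W_7d29a1_h46u Pool.Agent.W_7d29a1_D2.B35
  Pool.Agent.W_7d29a1_Q29 Pool.Agent.W_7d29a1_R34 Pool.Agent.W_7d29a1_SP Pool.Agent.W_7d29a1_SD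
  Pool.Agent.W_7d29a1_SQ Pool.Agent.W_7d29a1_UC

variable {d : ℕ} {ρ : Measure ℝ} {β : ℝ}

/-- Very strong disorder gives localisation. -/
lemma loc1N [IsProbabilityMeasure ρ] (hd : 0 < d) (hρ : EM ρ) {h : Vec d} (hV : VSD ρ β h) :
    ∃ c₀ : ℝ, 0 < c₀ ∧ Loc1 ρ β h c₀ := by
  have hg : 0 < Real.log (Phi h) + Real.log (∫ t, Real.exp (β * t) ∂ρ) - lam ρ β h := by
    have : lam ρ β h < Real.log (Phi h) + Real.log (∫ t, Real.exp (β * t) ∂ρ) := hV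
    linarith
  obtain ⟨c₀, hc₀, hc⟩ := Csy42.loc42 hd hρ β _ hg
  refine ⟨c₀, hc₀, fun n => ?_⟩
  exact hc h (by linarith) n

/-- When the nonrandom fluctuation does not dominate, the running maximum of the random one is a
positive part of `Ps`, at a late time. -/
lemma domN [IsProbabilityMeasure ρ] {h : Vec d} {C : ℝ} (hC : 1 ≤ C)
    (h1 : ∀ᶠ n : ℕ in atTop, ∃ m : ℕ, m ≤ n ∧ En ρ β h n ≤ C * Fn ρ β h m)
    (h2 : ∀ B : ℝ, ∀ᶠ n : ℕ in atTop, ∃ m : ℕ, m ≤ n ∧ B ≤ Fn ρ β h m) (L₀ : ℕ) :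
    ∀ᶠ n : ℕ in atTop, ∃ m : ℕ, L₀ ≤ m ∧ m ≤ n ∧ Ps ρ β h n ≤ (C + 2) * Fn ρ β h m := by
  obtain ⟨n₀, hn₀⟩ := eventually_atTop.1 h1
  set B₀ : ℝ := (Finset.range (n₀ + 1)).sup' ⟨0, by simp⟩ (En ρ β h) with hB₀
  set B₁ : ℝ := (Finset.range (L₀ + 1)).sup' ⟨0, by simp⟩ (Fn ρ β h) with hB₁
  have hB0 : 0 ≤ B₀ := supE_nonneg32 h n₀
  have hB1 : 0 ≤ B₁ := supF_nonneg32 h L₀
  filter_upwards [h2 (1 + B₀ + (B₁ + 1))] with n hn
  obtain ⟨m', hm', hF'⟩ := hn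
  obtain ⟨m, hm, hmax⟩ := Finset.exists_mem_eq_sup' (s := Finset.range (n + 1))
    ⟨0, by simp⟩ (Fn ρ β h)
  have hmn : m ≤ n := Nat.lt_succ_iff.1 (Finset.mem_range.1 hm)
  have hbig : ∀ k : ℕ, k ≤ n → Fn ρ β h k ≤ Fn ρ β h m := fun k hk => by
    rw [← hmax]
    exact Finset.le_sup' (Fn ρ β h) (by simp; omega)
  have hFm : 1 + B₀ + (B₁ + 1) ≤ Fn ρ β h m := hF'.trans (hbig m' hm')
  have hmL : L₀ ≤ m := by
    by_contra hlt
    push Not at hlt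
    have h3 : Fn ρ β h m ≤ B₁ := Finset.le_sup' (Fn ρ β h) (by simp; omega)
    linarith
  refine ⟨m, hmL, hmn, ?_⟩
  have hEs : (Finset.range (n + 1)).sup' ⟨0, by simp⟩ (En ρ β h) ≤ B₀ + C * Fn ρ β h m := by
    refine Finset.sup'_le _ _ fun k hk => ?_
    have hkn : k ≤ n := Nat.lt_succ_iff.1 (Finset.mem_range.1 hk)
    rcases le_or_gt n₀ k with hc | hc
    · obtain ⟨m₂, hm₂, hE⟩ := hn₀ k hc
      have h3 := hbig m₂ (hm₂.trans hkn)
      nlinarith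
    · have h3 : En ρ β h k ≤ B₀ := Finset.le_sup' (En ρ β h) (by simp; omega)
      have h4 : 0 ≤ C * Fn ρ β h m := by
        have := Fn_nonneg32 (ρ := ρ) (β := β) h m
        positivity
      linarith
  unfold Ps
  rw [hmax]
  linarith

/-- **THEOREM UN from its leaves.** -/
theorem mainUN70 [IsProbabilityMeasure ρ] (hd : 0 < d) (hρ : EM ρ) (hSel : SelN d ρ β)
    (hUC : MainC d ρ β) (hPri : PriP d ρ β) (hF : FluP d ρ β) (hB : BalP d ρ β)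
    (hA : AmpP d ρ β) (hS : SscF d ρ β) : MainUN d ρ β := by
  unfold MainUN
  unfold SelN at hSel
  filter_upwards [hSel] with v hv h hV C₀
  by_contra hcon
  rw [not_or] at hcon
  obtain ⟨h1, h2⟩ := hcon
  have hHalf : Half ρ β h v := by
    intro δ ε hδ hε
    by_contra h3
    refine h2 ⟨δ, ε, hδ, hε, ?_⟩
    rw [not_eventually] at h3
    exact h3.mono fun n hn => not_le.1 hn
  set C : ℝ := max C₀ 1 with hC
  have hC1 : 1 ≤ C := le_max_right _ _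
  have hE : ∀ᶠ n : ℕ in atTop, ∃ m : ℕ, m ≤ n ∧ En ρ β h n ≤ C * Fn ρ β h m := by
    rw [not_frequently] at h1
    filter_upwards [h1] with n hn
    push Not at hn
    obtain ⟨m, hm, hlt⟩ := hn
    refine ⟨m, hm, hlt.le.trans (mul_le_mul_of_nonneg_right (le_max_left _ _) ?_)⟩
    exact Fn_nonneg32 h m
  obtain ⟨θ, hθ, hMC⟩ := hUC h hV C₀
  rcases hMC with h3 | h3
  · exact h1 h3
  have hcast : Tendsto (fun n : ℕ => (n : ℝ)) atTop atTop := tendsto_natCast_atTop_atTop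
  have hpow : Tendsto (fun n : ℕ => (n : ℝ) ^ θ) atTop atTop := (tendsto_rpow_atTop hθ).comp hcast
  have hinf : ∀ B : ℝ, ∀ᶠ n : ℕ in atTop, ∃ m : ℕ, m ≤ n ∧ B ≤ Fn ρ β h m := by
    intro B
    filter_upwards [h3, hpow.eventually (eventually_ge_atTop B)] with n hn hB
    obtain ⟨m, hm, hle⟩ := hn
    exact ⟨m, hm, hB.trans hle⟩
  obtain ⟨c₀, hc₀, hL⟩ := loc1N hd hρ hV
  obtain ⟨δ₀, κ, hδ₀, hκ, hκ1, kR⟩ := recN70 hF hB hA hS (fun h n => one_le_Ps32 h n)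
    (fun h k n hk => ⟨by linarith [En_le_Ps32 (ρ := ρ) (β := β) h hk],
      by linarith [Fn_le_Ps32 (ρ := ρ) (β := β) h hk]⟩) hc₀ (show 1 ≤ C + 2 by linarith)
  obtain ⟨K, hK, hRS⟩ := hv h hHalf κ (θ / 4) δ₀ hκ hκ1 (by positivity) hδ₀
  obtain ⟨L₀, hL₀⟩ := eventually_atTop.1 hRS
  obtain ⟨C₁, hC₁, hP⟩ := hPri h
  -- the numbers
  have hnum : ∀ᶠ n : ℕ in atTop, K * (2 * (n : ℝ)) ^ (θ / 2) + 1 + 1 < (n : ℝ) ^ θ := by
    have h4 : Tendsto (fun n : ℕ => (n : ℝ) ^ (θ / 2)) atTop atTop :=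
      (tendsto_rpow_atTop (by positivity)).comp hcast
    filter_upwards [h4.eventually (eventually_gt_atTop (K * 2 ^ (θ / 2) + 2)),
      eventually_ge_atTop 1] with n hn hn1
    have hn0 : (0 : ℝ) < n := by exact_mod_cast hn1
    have e : (n : ℝ) ^ θ = (n : ℝ) ^ (θ / 2) * (n : ℝ) ^ (θ / 2) := by
      rw [← Real.rpow_add hn0]
      congr 1
      ring
    rw [e, Real.mul_rpow (by norm_num) hn0.le]
    have h5 : 0 < K * (2 : ℝ) ^ (θ / 2) := by positivity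
    have h6 : 1 ≤ (n : ℝ) ^ (θ / 2) := by linarith
    nlinarith
  have hall := (domN hC1 hE hinf (max L₀ 1)).and (hnum.and h3)
  obtain ⟨N₁, hN₁⟩ := eventually_atTop.1 hall
  obtain ⟨n, hn1, hrec, -⟩ := rrec83 (f := Ps ρ β h) (C₀ := 2 * C₁) (by positivity)
    (fun n => one_le_Ps32 h n) (fun n => Ps_le32 h hC₁ hP n) (n := max N₁ 1) (le_max_right _ _)
  obtain ⟨⟨m, hmL, hmn, hD⟩, hnumn, m', hm', hθm⟩ := hN₁ n ((le_max_left _ _).trans hn1)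
  have hm1 : 1 ≤ m := (le_max_right _ _).trans hmL
  have hmL0 : L₀ ≤ m := (le_max_left _ _).trans hmL
  have hmR : (1 : ℝ) ≤ m := by exact_mod_cast hm1
  have hmnR : (m : ℝ) ≤ n := by exact_mod_cast hmn
  have hkey := kR h hL n hrec m hm1 hmn hD (K * (2 * (m : ℝ)) ^ (θ / 2)) (by positivity)
    (fun L hL1 hL2 => by
      refine RS_mono2 ?_ le_rfl (hL₀ L (hmL0.trans hL1))
      have e : 2 * (θ / 4) = θ / 2 := by ring
      rw [e]
      have hLR : (L : ℝ) ≤ 2 * m := by exact_mod_cast hL2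
      exact mul_le_mul_of_nonneg_left (Real.rpow_le_rpow (Nat.cast_nonneg L) hLR (by positivity))
        hK.le)
  have h5 : K * (2 * (m : ℝ)) ^ (θ / 2) ≤ K * (2 * (n : ℝ)) ^ (θ / 2) :=
    mul_le_mul_of_nonneg_left (Real.rpow_le_rpow (by positivity) (by linarith) (by positivity))
      hK.le
  have h6 := Fn_le_Ps32 (ρ := ρ) (β := β) h hm'
  linarith

end Pool.Agent.W_7d29a1_UN
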