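import Pool.Agent.W_7d29a1_SP.DefsSP
import Pool.Agent.W_7d29a1_SD.DefsSD

/-!
Theorem UN: no upper critical dimension for the wandering exponent, unless the nonrandom
fluctuations dominate. Definitions. Paper proof: `/team-store/h70_UN.md`.
-/

namespace Pool.Agent.W_7d29a1_UN

open MeasureTheory ProbabilityTheory Filter Topology Pool.Agent.W_MP_7d29a1_pr
  Pool.Agent.W_7d29a1_h46 Pool.Agent.W_7d29a1_h46u Pool.Agent.W_7d29a1_D2.B35
  Pool.Agent.W_7d29a1_Q29 Pool.Agent.W_7d29a1_R34 Pool.Agent.W_7d29a1_SP Pool.Agent.W_7d29a1_SD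

section Leaves

variable (d : ℕ) (ρ : Measure ℝ) (β : ℝ)

/-- The wandering exponent around the line `t v` is at most `1 / 2`, in probability. -/
def Half {d : ℕ} (ρ : Measure ℝ) (β : ℝ) (h v : Vec d) : Prop :=
  ∀ δ ε : ℝ, 0 < δ → 0 < ε → ∀ᶠ n : ℕ in atTop, Tb ρ β h v ((n : ℝ) ^ δ) n ≤ ε

/-- Leaf SEL: the partners. -/
def SelN : Prop := ∀ᵐ v : Vec d, ∀ h : Vec d, Half ρ β h v →
  ∀ κ δ ε : ℝ, 0 < κ → κ ≤ 1 → 0 < δ → 0 < ε → ∃ K : ℝ, 0 < K ∧ ∀ᶠ L : ℕ in atTop,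
    RS ρ β h L ⌊κ * L⌋₊ (K * (L : ℝ) ^ (2 * δ)) ε

/-- **THEOREM UN**: for almost every velocity `v` and every tilt of very strong disorder, either the
nonrandom fluctuations are infinitely often at least `C` times all the random ones up to that time,
or the polymer is superdiffusive by a power. -/
def MainUN : Prop := ∀ᵐ v : Vec d, ∀ h : Vec d, VSD ρ β h → ∀ C : ℝ,
  (∃ᶠ n : ℕ in atTop, ∀ m : ℕ, m ≤ n → C * Fn ρ β h m ≤ En ρ β h n) ∨
    ∃ δ ε : ℝ, 0 < δ ∧ 0 < ε ∧ ∃ᶠ n : ℕ in atTop, ε < Tb ρ β h v ((n : ℝ) ^ δ) n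

end Leaves

end Pool.Agent.W_7d29a1_UN
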