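import Pool.Agent.W_7d29a1_UN.DefsN70
import Pool.Agent.W_7d29a1_SD.Sel70
import Pool.Agent.W_7d29a1_SD.SubG20

/-!
Theorem UN: the selection of the partners.
-/

namespace Pool.Agent.W_7d29a1_UN

open MeasureTheory ProbabilityTheory Filter Topology Pool.Agent.W_MP_7d29a1_pr
  Pool.Agent.W_7d29a1_h46 Pool.Agent.W_7d29a1_h46u Pool.Agent.W_7d29a1_D2 Pool.Agent.W_7d29a1_Q29
  Pool.Agent.W_7d29a1_SP Pool.Agent.W_7d29a1_SD

variable {d : ℕ} {ρ : Measure ℝ} {β : ℝ}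

lemma RS_mono2 [IsProbabilityMeasure ρ] {h : Vec d} {n p : ℕ} {M M' δ δ' : ℝ} (hM : M ≤ M')
    (hδ : δ ≤ δ') (H : RS ρ β h n p M δ) : RS ρ β h n p M' δ' := by
  unfold RS at H ⊢
  refine (measureReal_mono fun w hw => ?_).trans (H.trans hδ)
  exact lt_of_le_of_lt hM hw

/-- The velocity is a slope of the free energy. -/
lemma slopeN [IsProbabilityMeasure ρ] (hd : 0 < d) (hρ : EM ρ) {h v : Vec d}
    (hT : Half ρ β h v) (k : Vec d) : lam ρ β h + inner ℝ v k ≤ lam ρ β (h + k) := by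
  refine coreG20 hd hρ h v k (θ := 1 / 2) (α := 1 / 2) (by norm_num) (by norm_num)
    (fun n : ℕ => (n : ℝ) ^ (1 / 4 : ℝ) * Real.sqrt n) ?_ ?_
  · have h1 : Tendsto (fun n : ℕ => (n : ℝ) ^ (-(1 / 4) : ℝ)) atTop (𝓝 0) :=
      (tendsto_rpow_neg_atTop (by norm_num)).comp tendsto_natCast_atTop_atTop
    refine h1.congr' ?_
    filter_upwards [eventually_ge_atTop 1] with n hn
    have hn0 : (0 : ℝ) < n := by exact_mod_cast hn
    have e1 : (n : ℝ) ^ (-(1 / 4) : ℝ) * (n : ℝ) ^ (1 : ℝ) =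
        (n : ℝ) ^ (1 / 4 : ℝ) * (n : ℝ) ^ (1 / 2 : ℝ) := by
      rw [← Real.rpow_add hn0, ← Real.rpow_add hn0]
      norm_num
    rw [eq_div_iff hn0.ne', Real.sqrt_eq_rpow, ← e1, Real.rpow_one]
  · filter_upwards [hT (1 / 4) (1 / 4) (by norm_num) (by norm_num)] with n hn
    have h1 := goodG20 (ρ := ρ) (β := β) h v n ((n : ℝ) ^ (1 / 4 : ℝ) * Real.sqrt n)
    have h2 : ∫ η, (1 - PolT β h η (tube d n v ((n : ℝ) ^ (1 / 4 : ℝ) * Real.sqrt n)))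
        ∂(law d ρ) ≤ 1 / 4 := hn
    linarith

/-- **Leaf SEL.** -/
theorem selN70 [IsProbabilityMeasure ρ] (hd : 0 < d) (hρ : EM ρ) (hP : PairS d ρ β) :
    SelN d ρ β := by
  classical
  set E : ℕ → ℕ → ℕ → Set (Vec d) := fun j i N =>
    {v | ∃ h : Vec d, (∀ k : Vec d, lam ρ β h + inner ℝ v k ≤ lam ρ β (h + k)) ∧
      ∀ n : ℕ, N ≤ n → Tb ρ β h v ((n : ℝ) ^ (1 / ((i : ℝ) + 1))) n ≤ 1 / ((j : ℝ) + 1)} with hE
  have hann : ∀ᵐ v : Vec d, ∀ j i N : ℕ, v ∈ E j i N → Sel70.Ann (E j i N) v :=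
    ae_all_iff.2 fun j => ae_all_iff.2 fun i => ae_all_iff.2 fun N => Sel70.ae_ann hd (E j i N)
  unfold SelN
  filter_upwards [hann, Sel70.ae_lip (lam_convex hd hρ β)] with v hv1 hv2 h hT κ δ ε hκ hκ1 hδ hε
  have hslope := slopeN hd hρ hT
  obtain ⟨C, δ₀, hC, hδ₀, hLip⟩ := hv2 h hslope
  obtain ⟨i, hi⟩ := exists_nat_ge (max (1 / δ) 3)
  obtain ⟨j, hj⟩ := exists_nat_ge (10 / ε)
  have hi0 : (0 : ℝ) < (i : ℝ) + 1 := by positivity
  have hj0 : (0 : ℝ) < (j : ℝ) + 1 := by positivity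
  set γ : ℝ := 1 / ((i : ℝ) + 1) with hγ
  have hγ0 : 0 < γ := by positivity
  have hγδ : γ ≤ δ := by
    have h1 : 1 / δ ≤ i := (le_max_left _ _).trans hi
    rw [div_le_iff₀ hδ] at h1
    rw [hγ, div_le_iff₀ hi0]
    nlinarith
  have hγ4 : γ ≤ 1 / 4 := by
    have h1 : (3 : ℝ) ≤ i := (le_max_right _ _).trans hi
    rw [hγ]
    exact one_div_le_one_div_of_le (by norm_num) (by linarith)
  have hjε : 10 * (1 / ((j : ℝ) + 1)) ≤ ε := by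
    rw [div_le_iff₀ hε] at hj
    rw [mul_one_div, div_le_iff₀ hj0]
    nlinarith
  obtain ⟨N, hN⟩ := eventually_atTop.1 (hT γ (1 / ((j : ℝ) + 1)) hγ0 (by positivity))
  obtain ⟨r₀, hr₀, hA⟩ := hv1 j i N ⟨h, hslope, hN⟩
  set a₀ : ℝ := 10 / κ with ha₀
  have ha0 : 0 < a₀ := by positivity
  refine ⟨C * a₀ ^ 2 + 2 * C * a₀ + 6, by positivity, ?_⟩
  have hlim : Tendsto (fun L : ℕ => a₀ * (L : ℝ) ^ (-(1 / 4) : ℝ)) atTop (𝓝 (a₀ * 0)) :=
    (((tendsto_rpow_neg_atTop (by norm_num)).comp tendsto_natCast_atTop_atTop)).const_mul a₀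
  rw [mul_zero] at hlim
  have hmin : 0 < min r₀ δ₀ := lt_min hr₀ hδ₀
  have hc2 : ∀ᶠ L : ℕ in atTop, 2 / κ ≤ (L : ℝ) :=
    tendsto_natCast_atTop_atTop.eventually (eventually_ge_atTop _)
  filter_upwards [hlim.eventually (gt_mem_nhds hmin), hc2, eventually_ge_atTop 1,
    eventually_ge_atTop N] with L h1 h2 h3 h4
  have hL1 : (1 : ℝ) ≤ L := by exact_mod_cast h3
  have hL0 : (0 : ℝ) < L := by linarith
  set s : ℝ := Real.sqrt L with hs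
  have hs0 : 0 < s := Real.sqrt_pos.2 hL0
  have hss : s * s = L := Real.mul_self_sqrt hL0.le
  set P : ℝ := (L : ℝ) ^ γ with hP'
  have hP1 : 1 ≤ P := Real.one_le_rpow hL1 hγ0.le
  have hP0 : 0 < P := by linarith
  have hr : a₀ * P / s ≤ min r₀ δ₀ := by
    refine le_trans ?_ h1.le
    rw [mul_div_assoc]
    refine mul_le_mul_of_nonneg_left ?_ ha0.le
    rw [hs, Real.sqrt_eq_rpow, hP', ← Real.rpow_sub hL0]
    exact Real.rpow_le_rpow_of_exponent_le hL1 (by linarith)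
  obtain ⟨y, ⟨g, hgs, hgT⟩, hy1, hy2⟩ := hA (a₀ * P / s) (by positivity)
    (hr.trans (min_le_left _ _))
  have h5 := hLip g y hgs (hy2.trans (hr.trans (min_le_right _ _)))
  have h6 : ‖y - v‖ * s ≤ a₀ * P := by rwa [le_div_iff₀ hs0] at hy2
  have h7 : ‖g - h‖ * s ≤ C * (a₀ * P) := by
    calc ‖g - h‖ * s ≤ C * ‖y - v‖ * s := mul_le_mul_of_nonneg_right h5 hs0.le
      _ = C * (‖y - v‖ * s) := by ring
      _ ≤ C * (a₀ * P) := mul_le_mul_of_nonneg_left h6 hC.le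
  have h8 : 2 * P * s < ((⌊κ * L⌋₊ : ℕ) : ℝ) * ‖y - v‖ := by
    have h9 : κ * L - 1 ≤ ((⌊κ * L⌋₊ : ℕ) : ℝ) := by
      have := Nat.lt_floor_add_one (κ * L)
      linarith
    have h10 : 2 ≤ κ * L := by
      rw [div_le_iff₀ hκ] at h2
      linarith
    have h11 : κ * L / 2 ≤ ((⌊κ * L⌋₊ : ℕ) : ℝ) := by linarith
    have h12 : κ * L / 2 * (a₀ * P / s / 2) ≤ ((⌊κ * L⌋₊ : ℕ) : ℝ) * ‖y - v‖ :=
      mul_le_mul h11 hy1 (by positivity) (Nat.cast_nonneg _)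
    refine lt_of_lt_of_le ?_ h12
    have e : κ * L / 2 * (a₀ * P / s / 2) = 5 / 2 * P * s := by
      rw [ha₀, ← hss]
      field_simp
      ring
    rw [e]
    nlinarith [mul_pos hP0 hs0]
  have h9 := hP h g v y L ⌊κ * L⌋₊ P (a₀ * P) (C * (a₀ * P)) (1 / ((j : ℝ) + 1)) hP0.le
    (by positivity) (by positivity) h6 h7 h8 (hN L h4) (hgT L h4)
  refine RS_mono2 ?_ hjε h9
  have h10 : P * P ≤ (L : ℝ) ^ (2 * δ) := by
    rw [hP', ← Real.rpow_add hL0]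
    exact Real.rpow_le_rpow_of_exponent_le hL1 (by linarith)
  have h11 : (1 : ℝ) ≤ P * P := by nlinarith
  have h12 : C * (a₀ * P) * (a₀ * P) + 2 * (C * (a₀ * P)) * P + 6 ≤
      (C * a₀ ^ 2 + 2 * C * a₀ + 6) * (P * P) := by nlinarith
  exact h12.trans (mul_le_mul_of_nonneg_left h10 (by positivity))

end Pool.Agent.W_7d29a1_UN
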