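import Pool.Agent.W_7d29a1_UN.FinN70
import Pool.Agent.W_7d29a1_UC.FinE43
import Pool.Agent.W_7d29a1_SQ.Flu78
import Pool.Agent.W_7d29a1_SQ.Tai94
import Pool.Agent.W_7d29a1_SQ.BalP62
import Pool.Agent.W_7d29a1_SQ.Ehl84
import Pool.Agent.W_7d29a1_SQ.Pri74
import Pool.Agent.W_7d29a1_SD.Rs6
import Pool.Agent.W_7d29a1_SD.TrSD80
import Pool.Agent.W_7d29a1_SD.MainS70

/-!
Theorem UN: no hypothesis left for the laws of the convex functions of a Gaussian variable, and the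
form in the letters of the problem.
-/

namespace Pool.Agent.W_7d29a1_UN

open MeasureTheory ProbabilityTheory Filter Topology Pool.Agent.W_MP_7d29a1_pr
  Pool.Agent.W_7d29a1_h46 Pool.Agent.W_7d29a1_h46u Pool.Agent.W_7d29a1_D2.B35
  Pool.Agent.W_7d29a1_Q29 Pool.Agent.W_7d29a1_R34 Pool.Agent.W_7d29a1_SP Pool.Agent.W_7d29a1_SD
  Pool.Agent.W_7d29a1_SQ Pool.Agent.W_7d29a1_UC

variable {d : ℕ} {ρ : Measure ℝ} [IsProbabilityMeasure ρ] {β : ℝ}

/-- **THEOREM UN** for the laws of the convex functions of a Gaussian variable. -/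
theorem mainUNF70 (hd : 0 < d) (hρ : EM ρ) (hG : GC ρ) (hnc : ∀ c : ℝ, ρ {c} ≠ 1)
    (hβ : 0 < β) : MainUN d ρ β := by
  have hT : TaiP d ρ β := tai94 (cnt79 hd hρ β)
  exact mainUN70 hd hρ (selN70 hd hρ (pairS6 hd β)) (mainC43 hd hρ hG hnc hβ) (pri74 hd hρ β)
    (flu78 hd hρ hT) (balP62 hd hρ hT (ehl84 hd hG hβ.le)) (amp84 hd hG hβ.le) (sscF35 hd hρ β)

variable {Ω : Type*} [MeasurableSpace Ω] {μ : Measure Ω} [IsProbabilityMeasure μ]
  {ω : ℕ × Site d → Ω → ℝ}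

/-- **THEOREM UN** in the letters of the problem. -/
theorem trUN70 (hd : 0 < d) (hω : IID μ ρ ω) (hρ : EM ρ) (hM : MainUN d ρ β) :
    ∀ᵐ v : Vec d, ∀ h : Vec d, lamN ρ β h < annN ρ β h → ∀ C : ℝ,
      (∃ᶠ n : ℕ in atTop, ∀ m : ℕ, m ≤ n →
        C * ∫ x, |Real.log (Zn β h (fun p => ω p x) m) -
          ∫ y, Real.log (Zn β h (fun p => ω p y) m) ∂μ| ∂μ ≤
            n * lamN ρ β h - ∫ x, Real.log (Zn β h (fun p => ω p x) n) ∂μ) ∨
        ∃ θ : ℝ, 0 < θ ∧ ∃ᶠ n : ℕ in atTop,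
          θ < ∫ x, PolT β h (fun p => ω p x) {s : Fin n → Step d | ∃ i ≤ n,
            (n : ℝ) ^ (1 / 2 + θ) < ‖emb (pos s i) - (i : ℝ) • v‖} ∂μ := by
  unfold MainUN at hM
  filter_upwards [hM] with v hv h hh C
  simp only [fn19 hd hω hρ, en19 hd hω hρ]
  rcases hv h ((vsd29 h).1 hh) C with h1 | ⟨δ, ε, hδ, hε, h1⟩
  · exact Or.inl h1
  · refine Or.inr ⟨min δ ε, lt_min hδ hε, ?_⟩
    refine (h1.and_eventually (eventually_ge_atTop 1)).mono fun n hn => ?_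
    obtain ⟨hn, hn1⟩ := hn
    have hnR : (1 : ℝ) ≤ n := by exact_mod_cast hn1
    have hn0 : (0 : ℝ) < n := by linarith
    have e : (n : ℝ) ^ (1 / 2 + min δ ε) = (n : ℝ) ^ (min δ ε) * Real.sqrt n := by
      rw [Real.sqrt_eq_rpow, ← Real.rpow_add hn0]
      congr 1
      ring
    have h2 : Tb ρ β h v ((n : ℝ) ^ δ) n ≤ Tb ρ β h v ((n : ℝ) ^ (min δ ε)) n :=
      Tb_anti β h v n (Real.rpow_le_rpow_of_exponent_le hnR (min_le_left _ _))
    rw [e, TrSD80.tb_int80 hd hω h v _ n]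
    exact (min_le_right _ _).trans_lt (hn.trans_le h2)

end Pool.Agent.W_7d29a1_UN
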